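import Pool.Agent.Q76.HR.Main

/-!
# MP_530d8e_an: continuous horizontally rigid functions are affine, in every dimension

Let `f : ℝⁿ → ℝ` be continuous and let `C` be a set of positive numbers with infimum `0` such that for
every `c ∈ C` some isometry of `ℝⁿ⁺¹` maps the graph of `f` onto the graph of `f (c ·)`.  Then `f` is
affine.  For `C = (0, ∞)` this is Q1.

Outline.  (1) The directions `(v, t)` with `f (x + s v) ≤ f x + s t` for all `x` and all `s > 0` form a
closed convex cone `K f`; together with `- K f` it is the closure of the set of the directions which are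
not parallel to a secant of the graph.  Hence the linear part of an isometry between the graphs of `f`
and `f (c ·)` maps `K f` onto `± K (f (c ·))`, and it maps the space `Λ` of the translations which
preserve the graph onto the same space for `f (c ·)`.  (2) As `c → 0` along `C` the cones `K (f (c ·))`
converge to a product of a horizontal cone and the vertical half-line.  So `K f` is isometric to such a
product; let `r` be the direction in `K f` of its half-line.  The vertical direction spans, modulo
`Λ (f (c ·))`, an extreme ray of `K (f (c ·))`, and it follows that for all small `c` in the sequence the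
isometry maps `r` to the vertical direction, modulo `Λ (f (c ·))` and a factor `1 / s(c)`, `s(c) → 1`.
(3) For two such numbers `c < c'` one obtains a similarity `S` with ratio `c / c'` of the orthogonal
complement `Y` of the horizontal part of `Λ`, such that `|f (S y) - f (S z)| = (s(c') / s(c)) |f y - f z|`
on `Y`.  These self-similarities have different exponents, or do not contract the values, and force `f`
to be constant on `Y`.
-/

set_option autoImplicit false

namespace Pool.Agent.Results.MP_530d8e_an.RigidIsAffine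

/-- `ℝⁿ⁺¹ = ℝⁿ × ℝ` with the Euclidean norm. -/
abbrev Space (n : ℕ) : Type := WithLp 2 (EuclideanSpace ℝ (Fin n) × ℝ)

/-- The graph of `f`. -/
def graph {n : ℕ} (f : EuclideanSpace ℝ (Fin n) → ℝ) : Set (Space n) :=
  {p | p.snd = f p.fst}

/-- `f` is horizontally rigid for the number `c`: an isometry of `ℝⁿ⁺¹` maps the graph of `f` onto the
graph of `x ↦ f (c x)`. -/
def RigidFor {n : ℕ} (f : EuclideanSpace ℝ (Fin n) → ℝ) (c : ℝ) : Prop :=
  ∃ φ : Space n ≃ᵢ Space n, φ '' graph f = graph fun x => f (c • x)

/-- `f` is horizontally rigid. -/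
def HorizontallyRigid {n : ℕ} (f : EuclideanSpace ℝ (Fin n) → ℝ) : Prop :=
  ∀ c : ℝ, 0 < c → RigidFor f c

/-- `f` is affine: `f x = a + ⟨b, x⟩`. -/
def IsAffine {n : ℕ} (f : EuclideanSpace ℝ (Fin n) → ℝ) : Prop :=
  ∃ (a : ℝ) (b : EuclideanSpace ℝ (Fin n)), ∀ x, f x = a + inner ℝ b x

open Pool.Agent.Q76.HR in
lemma rel_of_rigid {n : ℕ} {f : EuclideanSpace ℝ (Fin n) → ℝ} {c : ℝ} (h : RigidFor f c) :
    ∃ (O : Sp (EuclideanSpace ℝ (Fin n)) ≃ₗᵢ[ℝ] Sp (EuclideanSpace ℝ (Fin n)))
      (τ : Sp (EuclideanSpace ℝ (Fin n))), Rel O τ f (sc f c) := by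
  obtain ⟨φ, hφ⟩ := h
  set ψ := φ.toRealAffineIsometryEquiv with hψ
  refine ⟨ψ.linearIsometryEquiv, ψ 0, fun p => ?_⟩
  have h1 : ψ.linearIsometryEquiv p + ψ 0 = φ p := by
    have := ψ.map_vadd 0 p
    simp only [vadd_eq_add, add_zero] at this
    rw [← this]
    rfl
  rw [h1]
  constructor
  · intro hp
    have h2 : φ p ∈ φ '' graph f := ⟨p, hp, rfl⟩
    rw [hφ] at h2
    exact h2
  · intro hp
    have h2 : φ p ∈ φ '' graph f := by rw [hφ]; exact hp
    obtain ⟨q, hq, hqp⟩ := h2
    have : q = p := φ.injective hqp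
    rw [← this]
    exact hq

/-- **Theorem.** (1) In every dimension `n`, every continuous horizontally rigid function is affine.
(2) It suffices that `f` is horizontally rigid for a set `C` of positive numbers with infimum `0`. -/
theorem result :
    (∀ (n : ℕ) (f : EuclideanSpace ℝ (Fin n) → ℝ), Continuous f → HorizontallyRigid f →
      IsAffine f) ∧
    ∀ (n : ℕ) (f : EuclideanSpace ℝ (Fin n) → ℝ), Continuous f → ∀ C : Set ℝ,
      (∀ c ∈ C, 0 < c) → (∀ ε > 0, ∃ c ∈ C, c < ε) → (∀ c ∈ C, RigidFor f c) → IsAffine f := by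
  have main : ∀ (n : ℕ) (f : EuclideanSpace ℝ (Fin n) → ℝ), Continuous f → ∀ C : Set ℝ,
      (∀ c ∈ C, 0 < c) → (∀ ε > 0, ∃ c ∈ C, c < ε) → (∀ c ∈ C, RigidFor f c) → IsAffine f := by
    intro n f hf C hC hinf hrig
    choose c hcC hc using fun i : ℕ => hinf (1 / ((i : ℝ) + 1)) (by positivity)
    have hlim : Filter.Tendsto c Filter.atTop (nhds 0) :=
      squeeze_zero (fun i => (hC _ (hcC i)).le) (fun i => (hc i).le)
        tendsto_one_div_add_atTop_nhds_zero_nat
    obtain ⟨L, hL⟩ := Pool.Agent.Q76.HR.main hf (fun i => hC _ (hcC i)) hlim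
      (fun i => rel_of_rigid (hrig _ (hcC i)))
    refine ⟨f 0, (InnerProductSpace.toDual ℝ (EuclideanSpace ℝ (Fin n))).symm
      (LinearMap.toContinuousLinearMap L), fun x => ?_⟩
    rw [InnerProductSpace.toDual_symm_apply]
    exact hL x
  refine ⟨fun n f hf h => main n f hf (Set.Ioi 0) (fun c hc => hc) (fun ε hε =>
    ⟨ε / 2, half_pos hε, half_lt_self hε⟩) fun c hc => h c hc, main⟩

end Pool.Agent.Results.MP_530d8e_an.RigidIsAffine
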